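import Pool.Agent.H52.SWL.PD

/-!
# Row AD: the derivative of the dual amplitude
-/

set_option autoImplicit false

open MeasureTheory Set Filter Complex
open scoped Topology

namespace Pool.Agent.H52.SWL

open Pool.Agent.H31.SW
open Pool.Agent.H29.DW (dg Rl lf)

/-! ### Gluing -/

theorem cont_glue {X : Type} [TopologicalSpace X] {S : Set X} (hS : IsOpen S) {f : X × ℂ → ℂ}
    (h : ContinuousOn f (S ×ˢ Metric.ball (1 : ℂ) (1 / 100)))
    (h0 : ∀ q : X × ℂ, 1 / 10000 < ‖q.2 - 1‖ → f q = 0) : ContinuousOn f (S ×ˢ univ) := by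
  have hopen : IsOpen {q : X × ℂ | 1 / 10000 < ‖q.2 - 1‖} :=
    isOpen_lt continuous_const (by fun_prop)
  have h1 : ContinuousOn f {q : X × ℂ | 1 / 10000 < ‖q.2 - 1‖} :=
    (continuousOn_const (c := (0 : ℂ))).congr (fun q hq => h0 q hq)
  have h2 := h.union_of_isOpen h1 (hS.prod Metric.isOpen_ball) hopen
  refine h2.mono ?_
  rintro ⟨x, w⟩ ⟨hx, -⟩
  by_cases hw : 1 / 10000 < ‖w - 1‖
  · exact Or.inr hw
  · refine Or.inl ⟨hx, ?_⟩
    rw [Metric.mem_ball, dist_eq_norm]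
    rw [not_lt] at hw
    linarith

theorem cont_glue' {f : ℂ → ℂ} (h : ContinuousOn f (Metric.ball (1 : ℂ) (1 / 100)))
    (h0 : ∀ w : ℂ, 1 / 10000 < ‖w - 1‖ → f w = 0) : Continuous f ∧ HasCompactSupport f := by
  constructor
  · have h1 : ContinuousOn (fun q : Unit × ℂ => f q.2) (univ ×ˢ Metric.ball (1 : ℂ) (1 / 100)) :=
      h.comp (by fun_prop) (fun q hq => hq.2)
    have h2 := cont_glue isOpen_univ h1 (fun q hq => h0 q.2 hq)
    have h3 := h2.comp (f := fun w : ℂ => ((), w)) (s := univ) (by fun_prop)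
      (fun w _ => ⟨mem_univ _, mem_univ _⟩)
    exact continuousOn_univ.1 h3
  · refine HasCompactSupport.intro (isCompact_closedBall (1 : ℂ) (1 / 10000)) fun w hw => h0 w ?_
    rw [Metric.mem_closedBall, dist_eq_norm, not_le] at hw
    exact hw

/-! ### The amplitudes -/

theorem ev_zero {g : ℂ × ℂ × ℂ → ℂ} (hg : GC g) {q : ℂ × ℂ × ℂ}
    (hq : 1 / 10000 < ‖q.2.2 - 1‖) : g =ᶠ[𝓝 q] fun _ => 0 := by
  have hopen : IsOpen {q : ℂ × ℂ × ℂ | 1 / 10000 < ‖q.2.2 - 1‖} :=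
    isOpen_lt continuous_const (by fun_prop)
  filter_upwards [hopen.mem_nhds hq] with p hp using hg.2 p.1 p.2.1 p.2.2 hp

theorem fd_zero {g : ℂ × ℂ × ℂ → ℂ} (hg : GC g) {q : ℂ × ℂ × ℂ}
    (hq : 1 / 10000 < ‖q.2.2 - 1‖) : fderiv ℝ g q = 0 := by
  rw [(ev_zero hg hq).fderiv_eq]
  simp

theorem cd_at {g : ℂ × ℂ × ℂ → ℂ} (hg : GC g) (n : ℕ) {q : ℂ × ℂ × ℂ}
    (ha : q.1 ∈ Metric.ball (0 : ℂ) (1 / 100)) (hη : q.2.1 ∈ Metric.ball (1 : ℂ) (1 / 50)) :
    ContDiffAt ℝ n g q := by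
  by_cases hw : 1 / 10000 < ‖q.2.2 - 1‖
  · exact (contDiffAt_const (c := (0 : ℂ))).congr_of_eventuallyEq (ev_zero hg hw)
  · have hO : IsOpen O3 := Metric.isOpen_ball.prod (Metric.isOpen_ball.prod Metric.isOpen_ball)
    refine (hg.1 n).contDiffAt (hO.mem_nhds ⟨ha, hη, ?_⟩)
    rw [Metric.mem_ball, dist_eq_norm]
    rw [not_lt] at hw
    linarith

theorem cont_at_fd {g : ℂ × ℂ × ℂ → ℂ} (hg : GC g) {q : ℂ × ℂ × ℂ}
    (ha : q.1 ∈ Metric.ball (0 : ℂ) (1 / 100)) (hη : q.2.1 ∈ Metric.ball (1 : ℂ) (1 / 50)) :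
    ContinuousAt (fderiv ℝ g) q := by
  have h1 := cd_at hg 1 ha hη
  exact (h1.fderiv_right (m := 0) (by norm_num)).continuousAt

/-! ### Numbers near `1` -/

theorem ne_of_ball {z c : ℂ} {ρ : ℝ} (h : ‖z - c‖ < ρ) (hc : ρ ≤ ‖c‖) : z ≠ 0 := by
  intro h0
  rw [h0, zero_sub, norm_neg] at h
  linarith

theorem sq_ne {a w : ℂ} (ha : ‖a‖ ≤ 1 / 10000) (hw : ‖w - 1‖ < 1 / 50) : w ^ 2 - a ^ 2 ≠ 0 := by
  have h1 : w - a ≠ 0 := by
    refine ne_of_ball (c := 1) (ρ := 1) ?_ (by simp)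
    calc ‖w - a - 1‖ = ‖(w - 1) - a‖ := by congr 1; ring
      _ ≤ ‖w - 1‖ + ‖a‖ := norm_sub_le _ _
      _ < 1 := by linarith
  have h2 : w + a ≠ 0 := by
    refine ne_of_ball (c := 1) (ρ := 1) ?_ (by simp)
    calc ‖w + a - 1‖ = ‖(w - 1) + a‖ := by congr 1; ring
      _ ≤ ‖w - 1‖ + ‖a‖ := norm_add_le _ _
      _ < 1 := by linarith
  have h3 : w ^ 2 - a ^ 2 = (w - a) * (w + a) := by ring
  rw [h3]
  exact mul_ne_zero h1 h2

theorem add_ne {w U : ℂ} (hw : ‖w - 1‖ < 1 / 50) (hU : ‖U - 1‖ < 1 / 50) : w + U ≠ 0 := by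
  refine ne_of_ball (c := 2) (ρ := 2) ?_ (by simp)
  calc ‖w + U - 2‖ = ‖(w - 1) + (U - 1)‖ := by congr 1; ring
    _ ≤ ‖w - 1‖ + ‖U - 1‖ := norm_add_le _ _
    _ < 2 := by linarith

/-! ### The derivative of the kernel -/

/-- composition with `pj` -/
theorem hd_comp_pj {F F₁ F₂ : ℂ → ℂ} {r : Bool} {z : ℂ} (h : HD F F₁ F₂ (pj r z)) :
    HD (fun z => F (pj r z)) (fun z => F₁ (pj r z))
      (fun z => ((if r then 0 else 1 : ℝ) : ℂ) * F₂ (pj r z)) z := by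
  cases r
  · simp only [pj_false] at h ⊢
    refine hd_of_eq h rfl ?_
    simp
  · simp only [pj_true] at h ⊢
    have h3 : HasFDerivAt (fun z : ℂ => ((z.re : ℝ) : ℂ))
        (Complex.ofRealCLM.comp Complex.reCLM) z :=
      (Complex.ofRealCLM.comp Complex.reCLM).hasFDerivAt
    refine hd_iff (HasFDerivAt.comp z h h3) ?_ ?_
    · simp
    · simp

/-- the kernel -/
noncomputable def kE (a Λ η w : ℂ) : ℂ := EE (Λ * (hh a w + η * w - psi a η))

/-- the derivative of the amplitude and the phase in the direction `d` -/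
noncomputable def kD (g : ℂ × ℂ × ℂ → ℂ) (a Λ d η w : ℂ) : ℂ :=
  fderiv ℝ g (a, η, w) (0, d, 0) * kE a Λ η w +
    g (a, η, w) * (-I * (((Λ * (w - UU a η) * d).re : ℝ) : ℂ) * kE a Λ η w)

theorem kD_zero {g : ℂ × ℂ × ℂ → ℂ} (hg : GC g) (a Λ d η : ℂ) {w : ℂ}
    (hw : 1 / 10000 < ‖w - 1‖) : kD g a Λ d η w = 0 := by
  unfold kD
  rw [fd_zero hg (q := (a, η, w)) hw, hg.2 a η w hw]
  simp

theorem hd_kernel (hHU : W_HU) {g : ℂ × ℂ × ℂ → ℂ} (hg : GC g) {a : ℂ} (Λ : ℂ) (ha : a ≠ 0)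
    (ha' : ‖a‖ ≤ 1 / 10000) {η : ℂ} (hη : η ∈ Metric.ball (1 : ℂ) (1 / 50)) (w : ℂ) :
    HD (fun η => g (a, η, w) * kE a Λ η w) (fun η => kD g a Λ 1 η w)
      (fun η => kD g a Λ I η w) η := by
  by_cases hw : 1 / 10000 < ‖w - 1‖
  · have h1 : HD (fun _ : ℂ => (0 : ℂ)) (fun _ => 0) (fun _ => 0) η := hd_const 0 η
    have h2 : (fun η => g (a, η, w) * kE a Λ η w) = fun _ => 0 := by
      funext η
      rw [hg.2 a η w hw, zero_mul]
    rw [h2]
    exact hd_of_eq h1 (kD_zero hg a Λ 1 η hw).symm (kD_zero hg a Λ I η hw).symm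
  · have haa : a ∈ Metric.ball (0 : ℂ) (1 / 100) := by
      rw [Metric.mem_ball, dist_zero_right]
      linarith
    have h1 : HasFDerivAt g (fderiv ℝ g (a, η, w)) (a, η, w) :=
      ((cd_at hg 1 (q := (a, η, w)) haa hη).differentiableAt (by norm_num)).hasFDerivAt
    have h2 : HasFDerivAt (fun η : ℂ => ((a, η, w) : ℂ × ℂ × ℂ))
        ((0 : ℂ →L[ℝ] ℂ).prod ((ContinuousLinearMap.id ℝ ℂ).prod (0 : ℂ →L[ℝ] ℂ))) η :=
      (hasFDerivAt_const a η).prodMk ((hasFDerivAt_id η).prodMk (hasFDerivAt_const w η))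
    have h3 : HD (fun η => g (a, η, w)) (fun η => fderiv ℝ g (a, η, w) (0, 1, 0))
        (fun η => fderiv ℝ g (a, η, w) (0, I, 0)) η := by
      refine hd_iff (HasFDerivAt.comp η h1 h2) ?_ ?_ <;> simp
    have h4 : HasDerivAt (fun η => Λ * (hh a w + η * w - psi a η)) (Λ * (w - UU a η)) η := by
      have h5 := (hHU a ha ha').2.1 η hη
      have h6 : HasDerivAt (fun η : ℂ => η * w) w η := by
        simpa using (hasDerivAt_id η).mul_const w
      exact ((h6.const_add (hh a w)).sub h5).const_mul Λ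
    have h5 := hd_EE (Ψ := fun η => Λ * (hh a w + η * w - psi a η))
      (p := fun η => Λ * (w - UU a η)) h4
    refine hd_of_eq (h3.mul h5) ?_ ?_
    · simp only [kD, kE, mul_one]
    · simp only [kD, kE]
      have h6 : ((Λ * (w - UU a η) * I).re : ℝ) = -(Λ * (w - UU a η)).im := by
        simp
      rw [h6]
      push_cast
      ring

/-! ### Continuity -/

theorem cont_UU (hUD : W_UD) {a : ℂ} (ha' : ‖a‖ ≤ 1 / 10000) :
    ContinuousOn (UU a) (Metric.ball (1 : ℂ) (1 / 50)) := by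
  have haa : a ∈ Metric.ball (0 : ℂ) (1 / 100) := by
    rw [Metric.mem_ball, dist_zero_right]
    linarith
  have h1 := (hUD.2.1 0).continuousOn
  exact h1.comp (f := fun η : ℂ => (a, η)) (by fun_prop) (fun η hη => ⟨haa, hη⟩)

theorem cont_hh (hHU : W_HU) {a : ℂ} (ha : a ≠ 0) (ha' : ‖a‖ ≤ 1 / 10000) :
    ContinuousOn (hh a) (Metric.ball (1 : ℂ) (1 / 50)) := fun w hw =>
  ((hHU a ha ha').1 w hw).continuousAt.continuousWithinAt

theorem cont_psi (hHU : W_HU) {a : ℂ} (ha : a ≠ 0) (ha' : ‖a‖ ≤ 1 / 10000) :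
    ContinuousOn (psi a) (Metric.ball (1 : ℂ) (1 / 50)) := fun w hw =>
  ((hHU a ha ha').2.1 w hw).continuousAt.continuousWithinAt

theorem ball_le {w : ℂ} (hw : w ∈ Metric.ball (1 : ℂ) (1 / 100)) :
    w ∈ Metric.ball (1 : ℂ) (1 / 50) :=
  Metric.ball_subset_ball (by norm_num) hw

theorem cont_kE (hHU : W_HU) {a : ℂ} (Λ : ℂ) (ha : a ≠ 0) (ha' : ‖a‖ ≤ 1 / 10000) :
    ContinuousOn (fun q : ℂ × ℂ => kE a Λ q.1 q.2)
      (Metric.ball (1 : ℂ) (1 / 50) ×ˢ Metric.ball (1 : ℂ) (1 / 100)) := by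
  have h1 : ContinuousOn (fun q : ℂ × ℂ => hh a q.2)
      (Metric.ball (1 : ℂ) (1 / 50) ×ˢ Metric.ball (1 : ℂ) (1 / 100)) :=
    (cont_hh hHU ha ha').comp (by fun_prop) (fun q hq => ball_le hq.2)
  have h2 : ContinuousOn (fun q : ℂ × ℂ => psi a q.1)
      (Metric.ball (1 : ℂ) (1 / 50) ×ˢ Metric.ball (1 : ℂ) (1 / 100)) :=
    (cont_psi hHU ha ha').comp (by fun_prop) (fun q hq => hq.1)
  have h3 : ContinuousOn (fun q : ℂ × ℂ => Λ * (hh a q.2 + q.1 * q.2 - psi a q.1))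
      (Metric.ball (1 : ℂ) (1 / 50) ×ˢ Metric.ball (1 : ℂ) (1 / 100)) := by
    refine continuousOn_const.mul ((h1.add ?_).sub h2)
    fun_prop
  exact continuous_EE.comp_continuousOn h3

theorem cont_g {g : ℂ × ℂ × ℂ → ℂ} (hg : GC g) {a : ℂ} (ha' : ‖a‖ ≤ 1 / 10000) :
    ContinuousOn (fun q : ℂ × ℂ => g (a, q.1, q.2)) (Metric.ball (1 : ℂ) (1 / 50) ×ˢ univ) := by
  have haa : a ∈ Metric.ball (0 : ℂ) (1 / 100) := by
    rw [Metric.mem_ball, dist_zero_right]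
    linarith
  intro q hq
  have h1 := (cd_at hg 0 (q := (a, q.1, q.2)) haa hq.1).continuousAt
  have h2 : ContinuousAt (fun q : ℂ × ℂ => ((a, q.1, q.2) : ℂ × ℂ × ℂ)) q := by fun_prop
  exact (ContinuousAt.comp (f := fun q : ℂ × ℂ => ((a, q.1, q.2) : ℂ × ℂ × ℂ)) h1
    h2).continuousWithinAt

theorem cont_fd {g : ℂ × ℂ × ℂ → ℂ} (hg : GC g) {a : ℂ} (ha' : ‖a‖ ≤ 1 / 10000)
    (v : ℂ × ℂ × ℂ) : ContinuousOn (fun q : ℂ × ℂ => fderiv ℝ g (a, q.1, q.2) v)
      (Metric.ball (1 : ℂ) (1 / 50) ×ˢ univ) := by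
  have haa : a ∈ Metric.ball (0 : ℂ) (1 / 100) := by
    rw [Metric.mem_ball, dist_zero_right]
    linarith
  intro q hq
  have h1 := cont_at_fd hg (q := (a, q.1, q.2)) haa hq.1
  have h2 : ContinuousAt (fun q : ℂ × ℂ => ((a, q.1, q.2) : ℂ × ℂ × ℂ)) q := by fun_prop
  have h3 : ContinuousAt (fun q : ℂ × ℂ => fderiv ℝ g (a, q.1, q.2)) q :=
    ContinuousAt.comp (f := fun q : ℂ × ℂ => ((a, q.1, q.2) : ℂ × ℂ × ℂ)) h1 h2
  exact (h3.clm_apply continuousAt_const).continuousWithinAt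

theorem cont_kD (hHU : W_HU) (hUD : W_UD) {g : ℂ × ℂ × ℂ → ℂ} (hg : GC g) {a : ℂ} (Λ d : ℂ)
    (ha : a ≠ 0) (ha' : ‖a‖ ≤ 1 / 10000) :
    ContinuousOn (fun q : ℂ × ℂ => kD g a Λ d q.1 q.2) (Metric.ball (1 : ℂ) (1 / 50) ×ˢ univ) := by
  refine cont_glue Metric.isOpen_ball ?_ (fun q hq => kD_zero hg a Λ d q.1 hq)
  have hsub : Metric.ball (1 : ℂ) (1 / 50) ×ˢ Metric.ball (1 : ℂ) (1 / 100) ⊆
      Metric.ball (1 : ℂ) (1 / 50) ×ˢ univ := prod_mono_right (subset_univ _)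
  have h1 := cont_kE hHU Λ ha ha'
  have h2 := (cont_fd hg ha' (0, d, 0)).mono hsub
  have h3 := (cont_g hg ha').mono hsub
  have h4 : ContinuousOn (fun q : ℂ × ℂ => UU a q.1)
      (Metric.ball (1 : ℂ) (1 / 50) ×ˢ Metric.ball (1 : ℂ) (1 / 100)) :=
    (cont_UU hUD ha').comp (by fun_prop) (fun q hq => hq.1)
  have h5 : ContinuousOn (fun q : ℂ × ℂ => Λ * (q.2 - UU a q.1) * d)
      (Metric.ball (1 : ℂ) (1 / 50) ×ˢ Metric.ball (1 : ℂ) (1 / 100)) :=
    (continuousOn_const.mul ((by fun_prop : ContinuousOn (fun q : ℂ × ℂ => q.2) _).sub h4)).mul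
      continuousOn_const
  have h6 : ContinuousOn (fun q : ℂ × ℂ => (((Λ * (q.2 - UU a q.1) * d).re : ℝ) : ℂ))
      (Metric.ball (1 : ℂ) (1 / 50) ×ˢ Metric.ball (1 : ℂ) (1 / 100)) :=
    (Complex.continuous_ofReal.comp Complex.continuous_re).comp_continuousOn h5
  exact (h2.mul h1).add (h3.mul ((continuousOn_const.mul h6).mul h1))

/-! ### Partial integration -/

theorem kk_algebra {a η w U : ℂ} (hU : U ^ 2 = a ^ 2 + η⁻¹) (hη : η ≠ 0) (hw : w + U ≠ 0)
    (hw2 : w ^ 2 - a ^ 2 ≠ 0) :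
    (w ^ 2 - a ^ 2) / (η * (w + U)) * (-1 / (w ^ 2 - a ^ 2) + η) = w - U := by
  have h1 : η * U ^ 2 = η * a ^ 2 + 1 := by
    rw [hU, mul_add, mul_inv_cancel₀ hη]
  field_simp
  linear_combination h1

theorem ibp (hIB : W_IB) (hHU : W_HU) (hUD : W_UD) (r : Bool) {g : ℂ × ℂ × ℂ → ℂ} (hg : GC g)
    {a Λ η d : ℂ} (ha : a ≠ 0) (ha' : ‖a‖ ≤ 1 / 10000) (hRa : Rl r a) (hRη : Rl r η)
    (hRd : Rl r d) (hη : η ∈ Metric.ball (1 : ℂ) (1 / 50)) :
    itg r (fun w => kD g a Λ d η w) = itg r (fun w => LL r d g (a, η, w) * kE a Λ η w) := by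
  have hη0 : η ≠ 0 := by
    refine ne_of_ball (c := 1) (ρ := 1) ?_ (by simp)
    rw [Metric.mem_ball, dist_eq_norm] at hη
    linarith
  have ha2 : ‖a‖ ≤ 1 / 100 := by linarith
  obtain ⟨hU2, hU1⟩ := hUD.1 a η ha2 hη
  have haa : a ∈ Metric.ball (0 : ℂ) (1 / 100) := by
    rw [Metric.mem_ball, dist_zero_right]
    linarith
  set U := UU a η with hU
  -- facts on the ball
  have hwU : ∀ w ∈ Metric.ball (1 : ℂ) (1 / 100), w + U ≠ 0 := by
    intro w hw
    have h1 := ball_le hw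
    rw [Metric.mem_ball, dist_eq_norm] at h1
    exact add_ne h1 hU1
  have hwa : ∀ w ∈ Metric.ball (1 : ℂ) (1 / 100), w ^ 2 - a ^ 2 ≠ 0 := by
    intro w hw
    have h1 := ball_le hw
    rw [Metric.mem_ball, dist_eq_norm] at h1
    exact sq_ne ha' h1
  have hsmall : ∀ w : ℂ, ¬ 1 / 10000 < ‖w - 1‖ → w ∈ Metric.ball (1 : ℂ) (1 / 100) := by
    intro w hw
    rw [Metric.mem_ball, dist_eq_norm]
    rw [not_lt] at hw
    linarith
  set p : ℂ → ℂ := fun w => Λ * (-1 / (w ^ 2 - a ^ 2) + η) with hp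
  have hΨ : ∀ w ∈ Metric.ball (1 : ℂ) (1 / 100),
      HasDerivAt (fun w => Λ * (hh a w + η * w - psi a η)) (p w) w := by
    intro w hw
    have h1 := (hHU a ha ha').1 w (ball_le hw)
    have h2 : HasDerivAt (fun w : ℂ => η * w) η w := by
      simpa using (hasDerivAt_id w).const_mul η
    exact ((h1.add h2).sub_const (psi a η)).const_mul Λ
  have hpc : ContinuousOn p (Metric.ball (1 : ℂ) (1 / 100)) := by
    refine continuousOn_const.mul (ContinuousOn.add ?_ continuousOn_const)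
    exact continuousOn_const.div (by fun_prop) hwa
  have hEc : ContinuousOn (fun w => kE a Λ η w) (Metric.ball (1 : ℂ) (1 / 100)) :=
    (cont_kE hHU Λ ha ha').comp (f := fun w : ℂ => (η, w)) (by fun_prop) (fun w hw => ⟨hη, hw⟩)
  have hGc : Continuous (fun w => g (a, η, w)) := by
    rw [← continuousOn_univ]
    exact (cont_g hg ha').comp (f := fun w : ℂ => (η, w)) (by fun_prop)
      (fun w hw => ⟨hη, hw⟩)
  have hFc : ∀ v : ℂ × ℂ × ℂ, Continuous (fun w => fderiv ℝ g (a, η, w) v) := by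
    intro v
    rw [← continuousOn_univ]
    exact (cont_fd hg ha' v).comp (f := fun w : ℂ => (η, w)) (by fun_prop)
      (fun w hw => ⟨hη, hw⟩)
  have hkd : ∀ w ∈ Metric.ball (1 : ℂ) (1 / 100),
      HasDerivAt (fun w => kk a η w * d) (kk' a η w * d) w := by
    intro w hw
    have h1 : HasDerivAt (fun w : ℂ => w ^ 2 - a ^ 2) (2 * w) w := by
      simpa using (hasDerivAt_pow 2 w).sub_const (a ^ 2)
    have h2 : HasDerivAt (fun w : ℂ => η * (w + U)) η w := by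
      simpa using ((hasDerivAt_id w).add_const U).const_mul η
    have h3 := (h1.div h2 (mul_ne_zero hη0 (hwU w hw))).mul_const d
    refine h3.congr_deriv ?_
    have h4 := hwU w hw
    unfold kk'
    rw [← hU]
    field_simp
  have hkc : ContinuousOn (fun w => kk a η w * d) (Metric.ball (1 : ℂ) (1 / 100)) :=
    fun w hw => (hkd w hw).continuousAt.continuousWithinAt
  have hkc' : ContinuousOn (fun w => kk' a η w * d) (Metric.ball (1 : ℂ) (1 / 100)) := by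
    refine ContinuousOn.mul ?_ continuousOn_const
    unfold kk'
    rw [← hU]
    refine ContinuousOn.div (by fun_prop) (by fun_prop) fun w hw => ?_
    exact mul_ne_zero hη0 (pow_ne_zero 2 (hwU w hw))
  have hRk : ∀ w ∈ Metric.ball (1 : ℂ) (1 / 100), Rl r w → Rl r (kk a η w * d) := by
    intro w hw hRw
    have hRU : Rl r U := ((hHU a ha ha').2.2 r hRa η hη hRη).2.1
    unfold kk
    rw [← hU]
    exact Rl_mul (Rl_div (Rl_sub (Rl_pow hRw 2) (Rl_pow hRa 2)) (Rl_mul hRη (Rl_add hRw hRU))) hRd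
  -- the partial integration
  have hre : ∀ {f : ℂ → ℂ}, ContinuousOn f (Metric.ball (1 : ℂ) (1 / 100)) →
      ContinuousOn (fun w => (((f w).re : ℝ) : ℂ)) (Metric.ball (1 : ℂ) (1 / 100)) :=
    fun h => (Complex.continuous_ofReal.comp Complex.continuous_re).comp_continuousOn h
  have him : ∀ {f : ℂ → ℂ}, ContinuousOn f (Metric.ball (1 : ℂ) (1 / 100)) →
      ContinuousOn (fun w => (((f w).im : ℝ) : ℂ)) (Metric.ball (1 : ℂ) (1 / 100)) :=
    fun h => (Complex.continuous_ofReal.comp Complex.continuous_im).comp_continuousOn h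
  have key := hIB r (Metric.ball (1 : ℂ) (1 / 100)) (Metric.closedBall (1 : ℂ) (1 / 10000))
    (fun w => kE a Λ η w) (fun w => -I * ((p w).re : ℝ) * kE a Λ η w)
    (fun w => I * ((p w).im : ℝ) * kE a Λ η w)
    (fun w => g (a, η, w)) (fun w => fderiv ℝ g (a, η, w) (0, 0, 1))
    (fun w => fderiv ℝ g (a, η, w) (0, 0, I)) (fun w => kk a η w * d) (fun w => kk' a η w * d)
    Metric.isOpen_ball (isCompact_closedBall _ _)
    (Metric.closedBall_subset_ball (by norm_num))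
    (fun w hw => hd_EE (Ψ := fun w => Λ * (hh a w + η * w - psi a η)) (p := p) (hΨ w hw))
    ((continuousOn_const.mul (hre hpc)).mul hEc)
    ((continuousOn_const.mul (him hpc)).mul hEc)
    (fun w => by
      have h1 : HasFDerivAt g (fderiv ℝ g (a, η, w)) (a, η, w) :=
        ((cd_at hg 1 (q := (a, η, w)) haa hη).differentiableAt (by norm_num)).hasFDerivAt
      have h2 : HasFDerivAt (fun w : ℂ => ((a, η, w) : ℂ × ℂ × ℂ))
          ((0 : ℂ →L[ℝ] ℂ).prod ((0 : ℂ →L[ℝ] ℂ).prod (ContinuousLinearMap.id ℝ ℂ))) w :=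
        (hasFDerivAt_const a w).prodMk ((hasFDerivAt_const η w).prodMk (hasFDerivAt_id w))
      refine hd_iff (HasFDerivAt.comp w h1 h2) ?_ ?_ <;> simp)
    (hFc _) (hFc _)
    (fun w hw => hg.2 a η w (by
      rw [Metric.mem_closedBall, dist_eq_norm, not_le] at hw
      exact hw))
    hkd hRk
  -- the two parts
  have hA := cont_glue' (f := fun w => fderiv ℝ g (a, η, w) (0, d, 0) * kE a Λ η w)
    ((hFc (0, d, 0)).continuousOn.mul hEc)
    (fun w hw => by rw [fd_zero hg (q := (a, η, w)) hw]; simp)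
  have hB := cont_glue' (f := fun w => ((((kk a η w * d).re : ℝ) : ℂ) *
      (-I * ((p w).re : ℝ) * kE a Λ η w) + (((kk a η w * d).im : ℝ) : ℂ) *
      (I * ((p w).im : ℝ) * kE a Λ η w)) * g (a, η, w))
    ((((hre hkc).mul ((continuousOn_const.mul (hre hpc)).mul hEc)).add
      ((him hkc).mul ((continuousOn_const.mul (him hpc)).mul hEc))).mul hGc.continuousOn)
    (fun w hw => by rw [hg.2 a η w hw, mul_zero])
  have hC := cont_glue' (f := fun w => -(kE a Λ η w * ((((kk a η w * d).re : ℝ) : ℂ) *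
      fderiv ℝ g (a, η, w) (0, 0, 1) + (((kk a η w * d).im : ℝ) : ℂ) *
      fderiv ℝ g (a, η, w) (0, 0, I) + ((dg r * (kk' a η w * d).re : ℝ) : ℂ) * g (a, η, w))))
    (by
      refine (hEc.mul ((((hre hkc).mul (hFc _).continuousOn).add
        ((him hkc).mul (hFc _).continuousOn)).add (ContinuousOn.mul ?_ hGc.continuousOn))).neg
      have h1 := (continuousOn_const (c := ((dg r : ℝ) : ℂ))).mul (hre hkc')
      refine h1.congr fun w _ => ?_
      push_cast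
      rfl)
    (fun w hw => by
      rw [fd_zero hg (q := (a, η, w)) hw, hg.2 a η w hw]
      simp)
  have e1 : itg r (fun w => kD g a Λ d η w) =
      itg r (fun w => fderiv ℝ g (a, η, w) (0, d, 0) * kE a Λ η w +
        ((((kk a η w * d).re : ℝ) : ℂ) *
      (-I * ((p w).re : ℝ) * kE a Λ η w) + (((kk a η w * d).im : ℝ) : ℂ) *
      (I * ((p w).im : ℝ) * kE a Λ η w)) * g (a, η, w)) := by
    refine itg_congr fun w _ => ?_
    unfold kD
    by_cases hw : 1 / 10000 < ‖w - 1‖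
    · rw [hg.2 a η w hw]
      simp
    · have hw' := hsmall w hw
      have h1 : kk a η w * (-1 / (w ^ 2 - a ^ 2) + η) = w - U := by
        unfold kk
        rw [← hU]
        exact kk_algebra hU2 hη0 (hwU w hw') (hwa w hw')
      have h2 : Λ * (w - UU a η) * d = (kk a η w * d) * p w := by
        rw [← hU, ← h1, hp]
        ring
      rw [h2, Complex.mul_re]
      push_cast
      ring
  rw [e1, itg_add hA.1 hA.2 hB.1 hB.2, key, ← itg_neg, ← itg_add hA.1 hA.2 hC.1 hC.2]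
  refine itg_congr fun w _ => ?_
  unfold LL
  have h1 : ((0, d, -(kk a η w * d)) : ℂ × ℂ × ℂ) = (0, d, 0) -
      ((kk a η w * d).re • ((0, 0, 1) : ℂ × ℂ × ℂ) +
        (kk a η w * d).im • ((0, 0, I) : ℂ × ℂ × ℂ)) := by
    refine Prod.ext ?_ (Prod.ext ?_ ?_)
    · simp
    · simp
    · simp only [Prod.snd_sub, Prod.snd_add, Prod.smul_snd, Complex.real_smul, mul_one]
      rw [zero_sub, Complex.re_add_im]
  simp only
  rw [h1, map_sub, map_add, map_smul, map_smul, Complex.real_smul, Complex.real_smul]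
  ring

/-- (AD) the derivative of the dual amplitude -/
theorem pf_AD (hIB : W_IB) (hHU : W_HU) (hUD : W_UD) : W_AD := by
  intro r g a Λ z hg ha ha' hRa hRΛ hz
  have hpj : ∀ z ∈ Metric.ball (1 : ℂ) (1 / 60), pj r z ∈ Metric.ball (1 : ℂ) (1 / 50) := by
    intro z hz
    have h1 : pj r 1 = 1 := pj_of_Rl (Rl_one r)
    rw [Metric.mem_ball, dist_eq_norm] at hz ⊢
    rw [← h1, ← pj_sub]
    exact lt_of_le_of_lt (norm_pj_le r _) (hz.trans (by norm_num))
  have hpc : ∀ (H : ℂ → ℂ → ℂ),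
      ContinuousOn (fun q : ℂ × ℂ => H q.1 q.2) (Metric.ball (1 : ℂ) (1 / 50) ×ˢ univ) →
      ContinuousOn (fun q : ℂ × ℂ => H (pj r q.1) q.2)
        (Metric.ball (1 : ℂ) (1 / 60) ×ˢ univ) := by
    intro H hH
    have hcp := continuous_pj r
    exact hH.comp (f := fun q : ℂ × ℂ => (pj r q.1, q.2)) (by fun_prop)
      (fun q hq => ⟨hpj q.1 hq.1, hq.2⟩)
  have hG0 : ContinuousOn (fun q : ℂ × ℂ => g (a, q.1, q.2) * kE a Λ q.1 q.2)
      (Metric.ball (1 : ℂ) (1 / 50) ×ˢ univ) := by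
    refine cont_glue Metric.isOpen_ball ?_ (fun q hq => ?_)
    · exact ((cont_g hg ha').mono (prod_mono_right (subset_univ _))).mul (cont_kE hHU Λ ha ha')
    · rw [hg.2 a q.1 q.2 hq, zero_mul]
  have h1 := hd_itg r (Metric.ball (1 : ℂ) (1 / 60)) (Metric.closedBall (1 : ℂ) (1 / 10000))
    Metric.isOpen_ball (isCompact_closedBall _ _)
    (fun z w => g (a, pj r z, w) * kE a Λ (pj r z) w)
    (fun z w => kD g a Λ 1 (pj r z) w)
    (fun z w => ((if r then 0 else 1 : ℝ) : ℂ) * kD g a Λ I (pj r z) w)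
    (hpc (fun η w => g (a, η, w) * kE a Λ η w) hG0)
    (hpc (fun η w => kD g a Λ 1 η w) (cont_kD hHU hUD hg Λ 1 ha ha'))
    (continuousOn_const.mul
      (hpc (fun η w => kD g a Λ I η w) (cont_kD hHU hUD hg Λ I ha ha')))
    (fun z hz w => hd_comp_pj (hd_kernel hHU hg Λ ha ha' (hpj z hz) w))
    (fun z _ w hw => by
      rw [Metric.mem_closedBall, dist_eq_norm, not_le] at hw
      rw [hg.2 a _ w hw, zero_mul]) z hz
  refine hd_of_eq h1 ?_ ?_
  · exact ibp hIB hHU hUD r hg ha ha' hRa (Rl_pj r z) (Rl_one r) (hpj z hz)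
  · cases r
    · simp only [Bool.false_eq_true, if_false, Complex.ofReal_one, one_mul]
      exact ibp hIB hHU hUD false hg ha ha' hRa (Rl_pj false z) (Rl_false I) (hpj z hz)
    · simp only [if_true, Complex.ofReal_zero, zero_mul]
      rw [itg_true]
      simp

end Pool.Agent.H52.SWL
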