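import Pool.Agent.H52.SWL.PD

/-!
# Row FD: the derivatives of the Fourier transform
-/

set_option autoImplicit false

open MeasureTheory Set Filter Complex
open scoped Topology

namespace Pool.Agent.H52.SWL

open Pool.Agent.H31.SW
open Pool.Agent.H29.DW (dg Rl lf)

/-- (FD) the derivatives of the Fourier transform -/
theorem pf_FD : W_FD := by
  intro r f R hf h0 z
  have h1 := hd_itg r univ (Metric.closedBall 0 R) isOpen_univ (isCompact_closedBall 0 R)
    (fun z w => EE (z * w) * f w)
    (fun z w => EE (z * w) * (-(I * ((w.re : ℝ) : ℂ)) * f w))
    (fun z w => EE (z * w) * (I * ((w.im : ℝ) : ℂ) * f w))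
    (by
      have := continuous_EE
      fun_prop)
    (by
      have := continuous_EE
      fun_prop)
    (by
      have := continuous_EE
      fun_prop)
    (by
      intro z _ w
      have h2 : HasDerivAt (fun z : ℂ => z * w) w z := by
        simpa using (hasDerivAt_id z).mul_const w
      have h3 := (hd_EE (Ψ := fun z : ℂ => z * w) (p := fun _ => w) h2).mul (hd_const (f w) z)
      refine hd_of_eq h3 ?_ ?_
      · ring
      · ring)
    (by
      intro z _ w hw
      rw [Metric.mem_closedBall, dist_zero_right, not_le] at hw
      rw [h0 w hw, mul_zero]) z (mem_univ z)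
  exact h1

end Pool.Agent.H52.SWL
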