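import Pool.Agent.H31.SW.Tools

/-!
# Differentiation under the integral sign for the integrals `itg`
-/

set_option autoImplicit false

open MeasureTheory Set Filter Complex
open scoped Topology

namespace Pool.Agent.H52.SWL

open Pool.Agent.H31.SW
open Pool.Agent.H29.DW (dg Rl lf)

/-- differentiation under the integral sign, one measure -/
theorem hd_integral {α : Type} [MeasurableSpace α] [TopologicalSpace α] [OpensMeasurableSpace α]
    [SecondCountableTopology α] [T2Space α] (μ : Measure α) [IsFiniteMeasureOnCompacts μ] (ι : α → ℂ)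
    (hι : Topology.IsClosedEmbedding ι) (S K : Set ℂ) (hS : IsOpen S) (hK : IsCompact K)
    (G G₁ G₂ : ℂ → ℂ → ℂ)
    (hG : ContinuousOn (fun q : ℂ × ℂ => G q.1 q.2) (S ×ˢ univ))
    (hG₁ : ContinuousOn (fun q : ℂ × ℂ => G₁ q.1 q.2) (S ×ˢ univ))
    (hG₂ : ContinuousOn (fun q : ℂ × ℂ => G₂ q.1 q.2) (S ×ˢ univ))
    (hd : ∀ z ∈ S, ∀ w, HD (fun z => G z w) (fun z => G₁ z w) (fun z => G₂ z w) z)
    (h0 : ∀ z ∈ S, ∀ w, w ∉ K → G z w = 0) (z : ℂ) (hz : z ∈ S) :
    HD (fun z => ∫ x, G z (ι x) ∂μ) (fun z => ∫ x, G₁ z (ι x) ∂μ)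
      (fun z => ∫ x, G₂ z (ι x) ∂μ) z := by
  -- the derivatives vanish off `K`
  have h12 : ∀ z ∈ S, ∀ w, w ∉ K → G₁ z w = 0 ∧ G₂ z w = 0 := by
    intro z hz w hw
    have h1 : HD (fun z => G z w) (fun _ => 0) (fun _ => 0) z := by
      refine (hd_const 0 z).congr ?_
      filter_upwards [hS.mem_nhds hz] with z' hz' using h0 z' hz' w hw
    exact (hd z hz w).unique h1
  -- continuity in the second variable
  have hc : ∀ (H : ℂ → ℂ → ℂ), ContinuousOn (fun q : ℂ × ℂ => H q.1 q.2) (S ×ˢ univ) →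
      ∀ z ∈ S, Continuous (fun w => H z w) := by
    intro H hH z hz
    rw [← continuousOn_univ]
    exact hH.comp (f := fun w => (z, w)) (by fun_prop) (fun w _ => ⟨hz, mem_univ w⟩)
  have hint : ∀ (H : ℂ → ℂ → ℂ), ContinuousOn (fun q : ℂ × ℂ => H q.1 q.2) (S ×ˢ univ) →
      (∀ z ∈ S, ∀ w, w ∉ K → H z w = 0) → ∀ z ∈ S, Integrable (fun x => H z (ι x)) μ := by
    intro H hH hH0 z hz
    refine Continuous.integrable_of_hasCompactSupport ((hc H hH z hz).comp hι.continuous) ?_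
    refine HasCompactSupport.intro (hι.isCompact_preimage hK) fun x hx => ?_
    exact hH0 z hz _ hx
  have hi := hint G hG h0
  have hi₁ := hint G₁ hG₁ (fun z hz w hw => (h12 z hz w hw).1)
  have hi₂ := hint G₂ hG₂ (fun z hz w hw => (h12 z hz w hw).2)
  -- a bound for the derivatives
  obtain ⟨ε, hε, hεS⟩ := Metric.nhds_basis_closedBall.mem_iff.1 (hS.mem_nhds hz)
  have hcomp : IsCompact (Metric.closedBall z ε ×ˢ K) :=
    (isCompact_closedBall z ε).prod hK
  have hb : ∀ (H : ℂ → ℂ → ℂ), ContinuousOn (fun q : ℂ × ℂ => H q.1 q.2) (S ×ˢ univ) →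
      ∃ C : ℝ, ∀ z' ∈ Metric.closedBall z ε, ∀ w ∈ K, ‖H z' w‖ ≤ C := by
    intro H hH
    obtain ⟨C, hC⟩ := hcomp.exists_bound_of_continuousOn
      (hH.mono (prod_mono hεS (subset_univ K)))
    exact ⟨C, fun z' hz' w hw => hC (z', w) ⟨hz', hw⟩⟩
  obtain ⟨C₁, hC₁⟩ := hb G₁ hG₁
  obtain ⟨C₂, hC₂⟩ := hb G₂ hG₂
  have hKm : MeasurableSet (ι ⁻¹' K) := (hι.isCompact_preimage hK).isClosed.measurableSet
  have hKf : μ (ι ⁻¹' K) < ⊤ := (hι.isCompact_preimage hK).measure_lt_top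
  have key := hasFDerivAt_integral_of_dominated_of_fderiv_le (𝕜 := ℝ) (μ := μ)
    (F := fun z x => G z (ι x))
    (F' := fun z x => Complex.reCLM.smulRight (G₁ z (ι x)) + Complex.imCLM.smulRight (G₂ z (ι x)))
    (x₀ := z) (s := Metric.closedBall z ε)
    (bound := (ι ⁻¹' K).indicator fun _ => |C₁| + |C₂|)
    (Metric.closedBall_mem_nhds z hε)
    (by
      filter_upwards [hS.mem_nhds hz] with z' hz' using (hi z' hz').aestronglyMeasurable)
    (hi z hz)
    (by
      have h3 : Continuous fun w : ℂ => (Complex.reCLM.smulRight w : ℂ →L[ℝ] ℂ) := by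
        exact (ContinuousLinearMap.smulRightL ℝ ℂ ℂ Complex.reCLM).continuous
      have h4 : Continuous fun w : ℂ => (Complex.imCLM.smulRight w : ℂ →L[ℝ] ℂ) := by
        exact (ContinuousLinearMap.smulRightL ℝ ℂ ℂ Complex.imCLM).continuous
      exact ((h3.comp_aestronglyMeasurable (hi₁ z hz).aestronglyMeasurable).add
        (h4.comp_aestronglyMeasurable (hi₂ z hz).aestronglyMeasurable)))
    (by
      refine ae_of_all _ fun x z' hz' => ?_
      by_cases hx : ι x ∈ K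
      · rw [indicator_of_mem (show x ∈ ι ⁻¹' K from hx)]
        refine (norm_add_le _ _).trans ?_
        rw [ContinuousLinearMap.norm_smulRight_apply, ContinuousLinearMap.norm_smulRight_apply]
        have h5 := (hC₁ z' hz' _ hx).trans (le_abs_self C₁)
        have h6 := (hC₂ z' hz' _ hx).trans (le_abs_self C₂)
        rw [Complex.reCLM_norm, Complex.imCLM_norm]
        linarith
      · rw [indicator_of_notMem (show x ∉ ι ⁻¹' K from hx)]
        obtain ⟨h5, h6⟩ := h12 z' (hεS hz') _ hx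
        rw [h5, h6]
        simp)
    (by
      rw [integrable_indicator_iff hKm]
      exact integrableOn_const hKf.ne)
    (by
      refine ae_of_all _ fun x z' hz' => ?_
      exact hd z' (hεS hz') (ι x))
  refine hd_iff key ?_ ?_
  · have h7 : ∀ d : ℂ, (∫ x, (Complex.reCLM.smulRight (G₁ z (ι x)) +
        Complex.imCLM.smulRight (G₂ z (ι x)) : ℂ →L[ℝ] ℂ) ∂μ) d =
        ∫ x, (Complex.reCLM.smulRight (G₁ z (ι x)) +
        Complex.imCLM.smulRight (G₂ z (ι x)) : ℂ →L[ℝ] ℂ) d ∂μ := by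
      intro d
      refine ContinuousLinearMap.integral_apply ?_ d
      have h3 := (ContinuousLinearMap.smulRightL ℝ ℂ ℂ Complex.reCLM).integrable_comp (hi₁ z hz)
      have h4 := (ContinuousLinearMap.smulRightL ℝ ℂ ℂ Complex.imCLM).integrable_comp (hi₂ z hz)
      exact h3.add h4
    rw [h7]
    simp
  · have h7 : ∀ d : ℂ, (∫ x, (Complex.reCLM.smulRight (G₁ z (ι x)) +
        Complex.imCLM.smulRight (G₂ z (ι x)) : ℂ →L[ℝ] ℂ) ∂μ) d =
        ∫ x, (Complex.reCLM.smulRight (G₁ z (ι x)) +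
        Complex.imCLM.smulRight (G₂ z (ι x)) : ℂ →L[ℝ] ℂ) d ∂μ := by
      intro d
      refine ContinuousLinearMap.integral_apply ?_ d
      have h3 := (ContinuousLinearMap.smulRightL ℝ ℂ ℂ Complex.reCLM).integrable_comp (hi₁ z hz)
      have h4 := (ContinuousLinearMap.smulRightL ℝ ℂ ℂ Complex.imCLM).integrable_comp (hi₂ z hz)
      exact h3.add h4
    rw [h7]
    simp

/-- differentiation under the integral sign -/
theorem hd_itg (r : Bool) (S K : Set ℂ) (hS : IsOpen S) (hK : IsCompact K)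
    (G G₁ G₂ : ℂ → ℂ → ℂ)
    (hG : ContinuousOn (fun q : ℂ × ℂ => G q.1 q.2) (S ×ˢ univ))
    (hG₁ : ContinuousOn (fun q : ℂ × ℂ => G₁ q.1 q.2) (S ×ˢ univ))
    (hG₂ : ContinuousOn (fun q : ℂ × ℂ => G₂ q.1 q.2) (S ×ˢ univ))
    (hd : ∀ z ∈ S, ∀ w, HD (fun z => G z w) (fun z => G₁ z w) (fun z => G₂ z w) z)
    (h0 : ∀ z ∈ S, ∀ w, w ∉ K → G z w = 0) (z : ℂ) (hz : z ∈ S) :
    HD (fun z => itg r (G z)) (fun z => itg r (G₁ z)) (fun z => itg r (G₂ z)) z := by
  cases r
  · have h1 := hd_integral (volume : Measure ℂ) (fun w => w) Topology.IsClosedEmbedding.id S K hS hK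
      G G₁ G₂ hG hG₁ hG₂ hd h0 z hz
    have h2 := h1.const_mul 2
    simpa only [itg_false] using h2
  · have h1 := hd_integral (volume : Measure ℝ) (fun x : ℝ => (x : ℂ))
      Complex.isometry_ofReal.isClosedEmbedding S K hS hK G G₁ G₂ hG hG₁ hG₂ hd h0 z hz
    simpa only [itg_true] using h1

end Pool.Agent.H52.SWL
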